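import Pool.Agent.R113.OS.Inv
import Pool.Agent.Helper929.Pfaffian

/-!
# MP_d12cfa_co, Q1: the Pfaffian identity for odd-order OSASMs

The two Pfaffians of the problem coincide for every `n`. Reason: the skew form with entries
`c a b` is anti-invariant under `x ↦ 1 - x`, `y ↦ 1 - y`, a substitution which takes the column
`(-1)^a` to the column `2^a`.
-/

set_option autoImplicit false

namespace Pool.Agent.Results.MP_d12cfa_co.PfaffianIdentity

open Pool.Agent.R113.OS Pool.Agent.Helper929 Matrix

/-- the power series `(y - x) / ((1 - x y) (1 - x - y))` over the rationals, where `x = X 0` and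
`y = X 1` -/
noncomputable def series : MvPowerSeries (Fin 2) ℚ :=
  (MvPowerSeries.X 1 - MvPowerSeries.X 0) *
    ((1 - MvPowerSeries.X 0 * MvPowerSeries.X 1) *
      (1 - MvPowerSeries.X 0 - MvPowerSeries.X 1))⁻¹

/-- `coef a b` is the coefficient of `x^a y^b` in `(y - x) / ((1 - x y) (1 - x - y))` -/
noncomputable def coef (a b : ℕ) : ℚ :=
  MvPowerSeries.coeff (Finsupp.single 0 a + Finsupp.single 1 b) series

/-- The skew-symmetric matrix with rows and columns `0, 1, ..., 2 n + 1`, with entry `coef a b` at
`(a, b)` for `a, b ≤ 2 n` and with last column `w 0, w 1, ..., w (2 n), 0`. -/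
noncomputable def array (n : ℕ) (w : ℕ → ℚ) : Matrix (Fin (2 * n + 2)) (Fin (2 * n + 2)) ℚ :=
  Matrix.of fun a b =>
    if a = Fin.last (2 * n + 1) then (if b = Fin.last (2 * n + 1) then 0 else - w b)
    else if b = Fin.last (2 * n + 1) then w a else coef a b

/-- The Pfaffian of an `n × n` array, by expansion along the first row; only the entries above
the diagonal are used. -/
noncomputable def pfaffian : (n : ℕ) → Matrix (Fin n) (Fin n) ℚ → ℚ
  | 0, _ => 1
  | 1, _ => 0
  | (n + 2), A => ∑ j : Fin (n + 1), (-1) ^ (j : ℕ) * A 0 j.succ *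
      pfaffian n (A.submatrix (fun k => (j.succAbove k).succ) (fun k => (j.succAbove k).succ))

theorem pfaffian_eq : ∀ (n : ℕ) (A : Matrix (Fin n) (Fin n) ℚ), pfaffian n A = pf n A
  | 0, _ => rfl
  | 1, _ => rfl
  | (n + 2), A => by
    simp only [pfaffian, pf]
    apply Finset.sum_congr rfl
    intro j _
    rw [pfaffian_eq n]

theorem coef_eq (a b : ℕ) : coef a b = c a b := rfl

theorem array_skew (n : ℕ) (w : ℕ → ℚ) (i j : Fin (2 * n + 2)) :
    array n w i j = - array n w j i := by
  simp only [array, Matrix.of_apply]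
  split_ifs
  · simp
  · rfl
  · simp
  · rw [coef_eq, coef_eq, skew]

theorem array_cc (n : ℕ) (w : ℕ → ℚ) (i j : Fin (2 * n + 1)) :
    array n w i.castSucc j.castSucc = c i j := by
  simp [array, Fin.castSucc_ne_last, coef_eq]

theorem array_cl (n : ℕ) (w : ℕ → ℚ) (i : Fin (2 * n + 1)) :
    array n w i.castSucc (Fin.last _) = w i := by
  simp [array, Fin.castSucc_ne_last]

theorem array_lc (n : ℕ) (w : ℕ → ℚ) (i : Fin (2 * n + 1)) :
    array n w (Fin.last _) i.castSucc = - w i := by
  simp [array, Fin.castSucc_ne_last]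

theorem array_ll (n : ℕ) (w : ℕ → ℚ) :
    array n w (Fin.last _) (Fin.last _) = 0 := by
  simp [array]

/-- the bordered substitution matrix, with a sign in the corner -/
noncomputable def P (n : ℕ) (s : ℚ) : Matrix (Fin (2 * n + 2)) (Fin (2 * n + 2)) ℚ :=
  Matrix.of fun a b =>
    if a = Fin.last (2 * n + 1) then (if b = Fin.last (2 * n + 1) then s else 0)
    else if b = Fin.last (2 * n + 1) then 0 else T a b

theorem P_cc (n : ℕ) (s : ℚ) (i j : Fin (2 * n + 1)) :
    P n s i.castSucc j.castSucc = T i j := by
  simp [P, Fin.castSucc_ne_last]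

theorem P_cl (n : ℕ) (s : ℚ) (i : Fin (2 * n + 1)) :
    P n s i.castSucc (Fin.last _) = 0 := by
  simp [P, Fin.castSucc_ne_last]

theorem P_lc (n : ℕ) (s : ℚ) (i : Fin (2 * n + 1)) :
    P n s (Fin.last _) i.castSucc = 0 := by
  simp [P, Fin.castSucc_ne_last]

theorem P_ll (n : ℕ) (s : ℚ) :
    P n s (Fin.last _) (Fin.last _) = s := by
  simp [P]

theorem det_P (n : ℕ) (s : ℚ) : (P n s).det = (-1) ^ n * s := by
  have hl : (P n s).BlockTriangular OrderDual.toDual := by
    intro a b hab
    have hab' : a < b := hab
    induction a using Fin.lastCases with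
    | last => exact absurd hab' (not_lt.2 (Fin.le_last _))
    | cast a =>
      induction b using Fin.lastCases with
      | last => exact P_cl n s a
      | cast b =>
        rw [P_cc]
        exact T_upper _ _ (by simpa using hab')
  rw [Matrix.det_of_isLowerTriangular _ hl, Fin.prod_univ_castSucc, P_ll]
  congr 1
  simp only [P_cc, T_diag]
  rw [Finset.prod_pow_eq_pow_sum, Fin.sum_univ_eq_sum_range (fun i => i) (2 * n + 1)]
  have : ∑ i ∈ Finset.range (2 * n + 1), i = n + 2 * (n * n) := by
    have h := Finset.sum_range_id_mul_two (2 * n + 1)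
    simp only [Nat.add_sub_cancel] at h
    nlinarith
  rw [this, pow_add, pow_mul]
  norm_num

/-- the binomial transform -/
noncomputable def tr (w : ℕ → ℚ) (n a : ℕ) : ℚ := ∑ i : Fin (2 * n + 1), T a i * w i

theorem spl (n : ℕ) (g : Fin (2 * n + 2) → ℚ) :
    ∑ i, g i = ∑ i : Fin (2 * n + 1), g i.castSucc + g (Fin.last (2 * n + 1)) :=
  Fin.sum_univ_castSucc g

theorem P_mul (n : ℕ) (w : ℕ → ℚ) :
    P n (-1) * array n w * (P n (-1))ᵀ = - array n (tr w n) := by
  ext a b
  rw [Matrix.mul_apply]
  simp only [Matrix.mul_apply, Matrix.transpose_apply, Matrix.neg_apply]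
  rw [spl n]
  induction a using Fin.lastCases with
  | last =>
    induction b using Fin.lastCases with
    | last =>
      simp [spl n, P_lc, P_ll, array_ll]
    | cast b =>
      simp only [spl n, P_lc, P_cc, P_cl, P_ll, array_lc, array_cc, array_ll,
        array_cl, zero_mul, Finset.sum_const_zero, zero_add, mul_zero, add_zero, tr]
      rw [neg_neg]
      apply Finset.sum_congr rfl
      intro i _
      ring
  | cast a =>
    induction b using Fin.lastCases with
    | last =>
      simp only [spl n, P_lc, P_cc, P_cl, P_ll, array_lc, array_cc, array_ll,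
        array_cl, zero_mul, Finset.sum_const_zero, zero_add, mul_zero, add_zero, tr]
      ring
    | cast b =>
      simp only [spl n, P_cc, P_cl, array_lc, array_cc, array_ll,
        array_cl, zero_mul, mul_zero, add_zero]
      rw [← TCT (2 * n + 1) a b a.2 b.2, Finset.sum_comm]
      apply Finset.sum_congr rfl
      intro j _
      rw [Finset.sum_mul]

theorem pf_neg : ∀ (m : ℕ) (A : Matrix (Fin (2 * m)) (Fin (2 * m)) ℚ),
    pf (2 * m) (-A) = (-1) ^ m * pf (2 * m) A
  | 0, _ => by simp [pf]
  | (m + 1), A => by
    change pf (2 * m + 2) (-A) = (-1) ^ (m + 1) * pf (2 * m + 2) A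
    simp only [pf]
    rw [Finset.mul_sum]
    apply Finset.sum_congr rfl
    intro j _
    have h := pf_neg m (A.submatrix (fun k => (j.succAbove k).succ)
      (fun k => (j.succAbove k).succ))
    have h2 : (-A).submatrix (fun k => (j.succAbove k).succ) (fun k => (j.succAbove k).succ) =
      -(A.submatrix (fun k => (j.succAbove k).succ) (fun k => (j.succAbove k).succ)) := rfl
    rw [h2, h, Matrix.neg_apply]
    ring

/-- The bordered Pfaffian does not change when the last column is replaced by its binomial
transform. -/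
theorem pf_tr (n : ℕ) (w : ℕ → ℚ) :
    pf (2 * n + 2) (array n w) = pf (2 * n + 2) (array n (tr w n)) := by
  have h1 := pf_gram (array n w) (array_skew n w) (P n (-1))
  rw [P_mul, det_P] at h1
  have h2 := pf_neg (n + 1) (array n (tr w n))
  have h3 : pf (2 * n + 2) (-array n (tr w n)) = (-1) ^ (n + 1) * pf (2 * n + 2) (array n (tr w n)) :=
    h2
  rw [h3] at h1
  rcases Nat.even_or_odd n with h | h
  · rw [pow_succ, h.neg_one_pow] at h1
    linarith
  · rw [pow_succ, h.neg_one_pow] at h1
    linarith

theorem tr_alt (n : ℕ) (a : Fin (2 * n + 1)) : tr (fun i => (-1) ^ i) n a = 2 ^ (a : ℕ) := by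
  rw [tr, T_eval _ _ a.2]
  norm_num

/-- the big skew matrix with two border columns -/
noncomputable def big (n : ℕ) (u v : ℕ → ℚ) : Matrix (Fin (2 * n + 3)) (Fin (2 * n + 3)) ℚ :=
  Matrix.of fun a b =>
    if (a : ℕ) ≤ 2 * n then
      (if (b : ℕ) ≤ 2 * n then coef a b else if (b : ℕ) = 2 * n + 1 then u a else v a)
    else if (b : ℕ) ≤ 2 * n then (if (a : ℕ) = 2 * n + 1 then - u b else - v b) else 0

theorem big_skew (n : ℕ) (u v : ℕ → ℚ) (i j : Fin (2 * n + 3)) :
    big n u v i j = - big n u v j i := by
  simp only [big, Matrix.of_apply]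
  split_ifs <;> simp [coef_eq, skew (j : ℕ) (i : ℕ)]

/-- vectors whose Gram matrix with respect to `big` is a bordered array -/
noncomputable def vec (n : ℕ) (x : Fin (2 * n + 3) → ℚ) : Fin (2 * n + 2) → (Fin (2 * n + 3) → ℚ) :=
  Function.update (fun i => Pi.single i.castSucc 1) (Fin.last (2 * n + 1)) x

theorem gram (n : ℕ) (u v w : ℕ → ℚ) (x : Fin (2 * n + 3) → ℚ)
    (hw : ∀ i : Fin (2 * n + 1),
      Matrix.toBilin' (big n u v) (Pi.single i.castSucc.castSucc 1) x = w i) :
    (Matrix.of fun i j => Matrix.toBilin' (big n u v) (vec n x i) (vec n x j)) = array n w := by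
  have hs : ∀ y z, Matrix.toBilin' (big n u v) y z = - Matrix.toBilin' (big n u v) z y := by
    intro y z
    have h := toBilin_self (big n u v) (big_skew n u v) (y + z)
    have h1 := toBilin_self (big n u v) (big_skew n u v) y
    have h2 := toBilin_self (big n u v) (big_skew n u v) z
    simp only [map_add, LinearMap.add_apply] at h
    linarith
  ext a b
  rw [Matrix.of_apply]
  induction a using Fin.lastCases with
  | last =>
    induction b using Fin.lastCases with
    | last => rw [toBilin_self _ (big_skew n u v), array_ll]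
    | cast b =>
      rw [array_lc, hs, ← hw]
      simp [vec]
  | cast a =>
    induction b using Fin.lastCases with
    | last =>
      rw [array_cl, ← hw]
      simp [vec]
    | cast b =>
      rw [array_cc, vec, Function.update_of_ne (Fin.castSucc_ne_last a),
        Function.update_of_ne (Fin.castSucc_ne_last b), Matrix.toBilin'_single]
      have ha : (a : ℕ) ≤ 2 * n := by omega
      have hb : (b : ℕ) ≤ 2 * n := by omega
      simp [big, ha, hb, coef_eq]

theorem pf_lin (n : ℕ) (u v : ℕ → ℚ) :
    pf (2 * n + 2) (array n (fun a => (u a + v a) / 2)) =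
      (pf (2 * n + 2) (array n u) + pf (2 * n + 2) (array n v)) / 2 := by
  have hself := toBilin_self (big n u v) (big_skew n u v)
  set x : Fin (2 * n + 3) → ℚ := Pi.single (Fin.last (2 * n + 1)).castSucc 1 with hx
  set y : Fin (2 * n + 3) → ℚ := Pi.single (Fin.last (2 * n + 2)) 1 with hy
  have hxw : ∀ i : Fin (2 * n + 1),
      Matrix.toBilin' (big n u v) (Pi.single i.castSucc.castSucc 1) x = u i := by
    intro i
    rw [hx, Matrix.toBilin'_single]
    have hi : (i : ℕ) ≤ 2 * n := by omega
    simp [big, hi]
  have hyw : ∀ i : Fin (2 * n + 1),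
      Matrix.toBilin' (big n u v) (Pi.single i.castSucc.castSucc 1) y = v i := by
    intro i
    rw [hy, Matrix.toBilin'_single]
    have hi : (i : ℕ) ≤ 2 * n := by omega
    simp [big, hi]
  have h1 := pfE_eq (Matrix.toBilin' (big n u v)) hself (2 * n + 2) (vec n x)
  have h2 := pfE_eq (Matrix.toBilin' (big n u v)) hself (2 * n + 2) (vec n y)
  have h3 := pfE_eq (Matrix.toBilin' (big n u v)) hself (2 * n + 2)
    (vec n ((1 / 2 : ℚ) • (x + y)))
  rw [gram n u v u x hxw] at h1
  rw [gram n u v v y hyw] at h2
  rw [gram n u v (fun a => (u a + v a) / 2) ((1 / 2 : ℚ) • (x + y)) (by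
    intro i
    rw [map_smul, map_add, hxw, hyw, smul_eq_mul]
    ring)] at h3
  rw [← h1, ← h2, ← h3, vec, vec, vec, AlternatingMap.map_update_smul,
    AlternatingMap.map_update_add, smul_eq_mul]
  ring

/-- **The Pfaffian identity to which Q1 is equivalent.** For every `n`, the Pfaffians of the two
skew-symmetric arrays of size `2 n + 2` coincide: entries `coef a b` for `a < b ≤ 2 n`, and last
column `(-1)^a` in the first array, `((-1)^a + 2^a) / 2` in the second. -/
theorem result (n : ℕ) :
    pfaffian (2 * n + 2) (array n (fun a => (-1) ^ a)) =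
      pfaffian (2 * n + 2) (array n (fun a => ((-1) ^ a + 2 ^ a) / 2)) := by
  rw [pfaffian_eq, pfaffian_eq, pf_lin, pf_tr n (fun a => (-1) ^ a)]
  have h : array n (tr (fun a => (-1) ^ a) n) = array n (fun a => 2 ^ a) := by
    ext a b
    induction a using Fin.lastCases with
    | last =>
      induction b using Fin.lastCases with
      | last => rw [array_ll, array_ll]
      | cast b => rw [array_lc, array_lc, tr_alt]
    | cast a =>
      induction b using Fin.lastCases with
      | last => rw [array_cl, array_cl, tr_alt]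
      | cast b => rw [array_cc, array_cc]
  rw [h]
  ring

end Pool.Agent.Results.MP_d12cfa_co.PfaffianIdentity
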